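import Mathlib

/-!
# Hypergraph Lovász–Saks–Schrijver ideals: the complete intersection property persists

Let `H` be a hypergraph whose edges form a clutter.  If the ideal `L_H(d)` is generated by a
regular sequence, then so is `L_H(d+1)`.  First the standard generators `f_A` of `L_H(d)` are shown
to form a regular sequence: they are minimal generators in the local ring at the origin, minimal
generators of an ideal generated by a regular sequence are a regular sequence by exchange, and one
returns to the polynomial ring by homogeneity.  Give the new variables `y_{i,d+1}` the weight `0`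
and the old ones the weight `1`: the leading forms of the generators of `L_H(d+1)` are the
generators of `L_H(d)`, and a sequence with weakly regular leading forms is weakly regular.
-/

namespace Pool.Agent.Results.MP_3122b6_ag.CompleteIntersectionPersists

open RingTheory.Sequence

/-! ### Regular sequences of ring elements -/

section general

variable {A : Type*} [CommRing A]

lemma reg_concat (rs : List A) (r : A) :
    IsWeaklyRegular A (rs ++ [r]) ↔
      IsWeaklyRegular A rs ∧ ∀ x, r * x ∈ Ideal.ofList rs → x ∈ Ideal.ofList rs := by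
  rw [isWeaklyRegular_append_iff, isWeaklyRegular_singleton_iff,
    isSMulRegular_quotient_iff_mem_of_smul_mem]
  have : (Ideal.ofList rs • ⊤ : Submodule A A) = Ideal.ofList rs := by
    rw [smul_eq_mul, Ideal.mul_top]
  rw [this]
  rfl

lemma mem_ofList_concat (rs : List A) (r x : A) :
    x ∈ Ideal.ofList (rs ++ [r]) ↔ ∃ c, ∃ y ∈ Ideal.ofList rs, x = c * r + y := by
  rw [Ideal.ofList_append, Ideal.ofList_singleton, Submodule.mem_sup]
  constructor
  · rintro ⟨y, hy, z, hz, rfl⟩
    obtain ⟨c, rfl⟩ := Ideal.mem_span_singleton'.mp hz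
    exact ⟨c, y, hy, by ring⟩
  · rintro ⟨c, y, hy, rfl⟩
    exact ⟨y, hy, c * r, Ideal.mem_span_singleton'.mpr ⟨c, rfl⟩, by ring⟩

lemma ofList_le_concat (rs : List A) (r : A) : Ideal.ofList rs ≤ Ideal.ofList (rs ++ [r]) := by
  rw [Ideal.ofList_append]
  exact le_sup_left

/-- ring isomorphisms -/
lemma reg_equiv {B : Type*} [CommRing B] (e : A ≃+* B) (rs : List A) (h : IsWeaklyRegular A rs) :
    IsWeaklyRegular B (rs.map e) := by
  induction rs using List.reverseRecOn with
  | nil => exact IsWeaklyRegular.nil B B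
  | append_singleton rs r ih =>
    rw [reg_concat] at h
    rw [List.map_append, List.map_cons, List.map_nil, reg_concat]
    refine ⟨ih h.1, ?_⟩
    intro x hx
    have hm : Ideal.ofList (rs.map e) = (Ideal.ofList rs).map (e : A →+* B) := by
      rw [Ideal.map_ofList]; rfl
    rw [hm] at hx ⊢
    have h2 := h.2 (e.symm x) ?_
    · have := Ideal.mem_map_of_mem (e : A →+* B) h2
      simpa using this
    · have h3 : e (r * e.symm x) ∈ (Ideal.ofList rs).map (e : A →+* B) := by
        simpa using hx
      obtain ⟨y, hy, hyx⟩ := (Ideal.mem_map_iff_of_surjective (e : A →+* B) e.surjective).mp h3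
      have : y = r * e.symm x := e.injective hyx
      rwa [← this]

/-- adding polynomial variables -/
lemma reg_C (τ : Type*) (rs : List A) (h : IsWeaklyRegular A rs) :
    IsWeaklyRegular (MvPolynomial τ A) (rs.map (MvPolynomial.C (σ := τ))) := by
  induction rs using List.reverseRecOn with
  | nil => exact IsWeaklyRegular.nil _ _
  | append_singleton rs r ih =>
    rw [reg_concat] at h
    rw [List.map_append, List.map_cons, List.map_nil, reg_concat]
    refine ⟨ih h.1, ?_⟩
    intro x hx
    rw [← Ideal.map_ofList, MvPolynomial.mem_map_C_iff] at hx ⊢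
    intro m
    apply h.2
    have := hx m
    rwa [MvPolynomial.coeff_C_mul] at this

end general

/-! ### Degeneration to leading forms -/

section graded

variable {A : Type*} [CommRing A] {σ : Type*} [SetLike σ A] [AddSubgroupClass σ A]
  (𝒜 : ℕ → σ) [GradedRing 𝒜]

/-- the component of degree `n` -/
noncomputable def comp (n : ℕ) (x : A) : A := (DirectSum.decompose 𝒜 x n : A)

lemma comp_add (n : ℕ) (x y : A) : comp 𝒜 n (x + y) = comp 𝒜 n x + comp 𝒜 n y := by
  unfold comp
  rw [DirectSum.decompose_add]
  rfl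

lemma comp_zero (n : ℕ) : comp 𝒜 n 0 = 0 := by
  unfold comp
  rw [DirectSum.decompose_zero]
  rfl

lemma comp_neg (n : ℕ) (x : A) : comp 𝒜 n (-x) = - comp 𝒜 n x := by
  have := comp_add 𝒜 n x (-x)
  rw [add_neg_cancel, comp_zero] at this
  exact (neg_eq_of_add_eq_zero_right this.symm).symm

lemma comp_sub (n : ℕ) (x y : A) : comp 𝒜 n (x - y) = comp 𝒜 n x - comp 𝒜 n y := by
  rw [sub_eq_add_neg, comp_add, comp_neg, sub_eq_add_neg]

lemma comp_mem (n : ℕ) (x : A) : comp 𝒜 n x ∈ 𝒜 n := (DirectSum.decompose 𝒜 x n).2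

/-- degree less than `N` -/
def Low (N : ℕ) (x : A) : Prop := ∀ n, N ≤ n → comp 𝒜 n x = 0

lemma Low.mono {N N' : ℕ} {x : A} (h : Low 𝒜 N x) (hN : N ≤ N') : Low 𝒜 N' x :=
  fun n hn => h n (hN.trans hn)

lemma low_zero (N : ℕ) : Low 𝒜 N (0 : A) := fun n _ => comp_zero 𝒜 n

lemma Low.add {N : ℕ} {x y : A} (hx : Low 𝒜 N x) (hy : Low 𝒜 N y) : Low 𝒜 N (x + y) := by
  intro n hn
  rw [comp_add, hx n hn, hy n hn, add_zero]

lemma Low.sub {N : ℕ} {x y : A} (hx : Low 𝒜 N x) (hy : Low 𝒜 N y) : Low 𝒜 N (x - y) := by
  intro n hn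
  rw [comp_sub, hx n hn, hy n hn, sub_zero]

lemma exists_low (x : A) : ∃ N, Low 𝒜 N x := by
  classical
  refine ⟨(DirectSum.decompose 𝒜 x).support.sup id + 1, ?_⟩
  intro n hn
  by_contra h
  have h1 : n ∈ (DirectSum.decompose 𝒜 x).support := by
    rw [DFinsupp.mem_support_iff]
    intro h0
    apply h
    unfold comp
    rw [h0]
    rfl
  have := Finset.le_sup (f := id) h1
  simp only [id] at this
  omega

lemma low_zero_iff {x : A} (h : Low 𝒜 0 x) : x = 0 := by
  classical
  have h2 : DirectSum.decompose 𝒜 x = 0 := by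
    ext n
    have := h n (Nat.zero_le n)
    simpa [comp] using this
  have := congrArg (DirectSum.decompose 𝒜).symm h2
  simpa using this

lemma comp_of_mem {n : ℕ} {x : A} (h : x ∈ 𝒜 n) (m : ℕ) : comp 𝒜 m x = if m = n then x else 0 := by
  unfold comp
  split_ifs with hm
  · subst hm
    exact DirectSum.decompose_of_mem_same 𝒜 h
  · exact DirectSum.decompose_of_mem_ne 𝒜 h (Ne.symm hm)

lemma comp_mul {e : ℕ} {F : A} (hF : F ∈ 𝒜 e) (n : ℕ) (x : A) :
    comp 𝒜 (e + n) (F * x) = F * comp 𝒜 n x := by
  unfold comp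
  exact DirectSum.coe_decompose_mul_add_of_left_mem 𝒜 hF

lemma comp_mul' {e : ℕ} {F : A} (hF : F ∈ 𝒜 e) (n : ℕ) (x : A) (hn : n < e) :
    comp 𝒜 n (F * x) = 0 := by
  unfold comp
  exact DirectSum.coe_decompose_mul_of_left_mem_of_not_le 𝒜 hF (by omega)

lemma low_of_mem {n : ℕ} {x : A} (h : x ∈ 𝒜 n) : Low 𝒜 (n + 1) x := by
  intro m hm
  rw [comp_of_mem 𝒜 h, if_neg (by omega)]

/-- products of low elements -/
lemma low_mul {a b : ℕ} {x y : A} (hx : Low 𝒜 (a + 1) x) (hy : Low 𝒜 b y) :
    Low 𝒜 (a + b) (x * y) := by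
  classical
  intro n hn
  -- expand x into its components
  have hxs := DirectSum.sum_support_decompose 𝒜 x
  rw [← hxs, Finset.sum_mul]
  have hsum : ∀ (s : Finset ℕ) (f : ℕ → A), comp 𝒜 n (∑ i ∈ s, f i) = ∑ i ∈ s, comp 𝒜 n (f i) := by
    intro s f
    induction s using Finset.induction_on with
    | empty => simp [comp_zero]
    | insert i s hi ih => rw [Finset.sum_insert hi, Finset.sum_insert hi, comp_add, ih]
  rw [hsum]
  apply Finset.sum_eq_zero
  intro i hi
  by_cases hia : a + 1 ≤ i
  · have := hx i hia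
    unfold comp at this
    rw [this, zero_mul]
    exact comp_zero 𝒜 n
  · have hmem : (DirectSum.decompose 𝒜 x i : A) ∈ 𝒜 i := (DirectSum.decompose 𝒜 x i).2
    have h1 := comp_mul 𝒜 hmem (n - i) y
    rw [show i + (n - i) = n by omega] at h1
    rw [h1, hy (n - i) (by omega), mul_zero]

/-- `f` has leading form `F` of degree `e` -/
def Lead (e : ℕ) (F f : A) : Prop := F ∈ 𝒜 e ∧ Low 𝒜 e (f - F)

/-- multiplying -/
lemma lead_mul_comp {e N : ℕ} {F f u : A} (hf : Lead 𝒜 e F f) (hu : Low 𝒜 (N + 1) u) :
    comp 𝒜 (N + e) (u * f) = comp 𝒜 N u * F := by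
  have h1 : u * f = F * u + u * (f - F) := by ring
  rw [h1, comp_add, add_comm N e, comp_mul 𝒜 hf.1, add_comm e N,
    low_mul 𝒜 hu hf.2 (N + e) le_rfl, add_zero, mul_comm]

lemma lead_mul_low {e N : ℕ} {F f u : A} (hf : Lead 𝒜 e F f) (hu : Low 𝒜 (N + 1) u) :
    Low 𝒜 (N + e + 1) (u * f) := by
  have h1 : u * f = u * F + u * (f - F) := by ring
  rw [h1]
  apply Low.add
  · have := low_mul 𝒜 hu (low_of_mem 𝒜 hf.1)
    rwa [← add_assoc] at this
  · exact (low_mul 𝒜 hu hf.2).mono 𝒜 (by omega)

/-- The main degeneration theorem. -/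
theorem degenerate {ι : Type*} (e : ι → ℕ) (F f : ι → A) (L : List ι)
    (hL : ∀ i ∈ L, Lead 𝒜 (e i) (F i) (f i)) (hreg : IsWeaklyRegular A (L.map F)) :
    IsWeaklyRegular A (L.map f) ∧
      (∀ D g, g ∈ Ideal.ofList (L.map f) → Low 𝒜 (D + 1) g → comp 𝒜 D g ∈ Ideal.ofList (L.map F)) ∧
      (∀ N x, x ∈ Ideal.ofList (L.map F) →
        ∃ w ∈ Ideal.ofList (L.map f), Low 𝒜 (N + 1) w ∧ comp 𝒜 N w = comp 𝒜 N x) := by
  induction L using List.reverseRecOn with
  | nil =>
    refine ⟨IsWeaklyRegular.nil _ _, ?_, ?_⟩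
    · intro D g hg _
      rw [List.map_nil, Ideal.ofList_nil, Ideal.mem_bot] at hg
      rw [hg, comp_zero]
      exact Submodule.zero_mem _
    · intro N x hx
      rw [List.map_nil, Ideal.ofList_nil, Ideal.mem_bot] at hx
      exact ⟨0, Submodule.zero_mem _, low_zero 𝒜 _, by rw [hx]⟩
  | append_singleton L i ih =>
    have hLi : Lead 𝒜 (e i) (F i) (f i) := hL i (by simp)
    rw [List.map_append, List.map_cons, List.map_nil, reg_concat] at hreg
    obtain ⟨hreg1, hreg2⟩ := hreg
    obtain ⟨ih1, ih2, ih3⟩ := ih (fun j hj => hL j (by simp [hj])) hreg1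
    rw [List.map_append, List.map_cons, List.map_nil, List.map_append, List.map_cons, List.map_nil]
    -- regularity
    have hB : ∀ N x, Low 𝒜 N x → f i * x ∈ Ideal.ofList (L.map f) → x ∈ Ideal.ofList (L.map f) := by
      intro N
      induction N with
      | zero =>
        intro x hx _
        rw [low_zero_iff 𝒜 hx]
        exact Submodule.zero_mem _
      | succ N ihN =>
        intro x hx hfx
        have h1 := ih2 (N + e i) (f i * x) hfx (by rw [mul_comm]; exact lead_mul_low 𝒜 hLi hx)
        rw [mul_comm (f i), lead_mul_comp 𝒜 hLi hx, mul_comm] at h1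
        have h2 := hreg2 _ h1
        obtain ⟨w, hw, hwl, hwc⟩ := ih3 N _ h2
        rw [comp_of_mem 𝒜 (comp_mem 𝒜 N x), if_pos rfl] at hwc
        have h3 : x - w ∈ Ideal.ofList (L.map f) := by
          apply ihN
          · intro n hn
            rcases Nat.eq_or_lt_of_le hn with rfl | hn
            · rw [comp_sub, hwc, sub_self]
            · rw [comp_sub, hx n hn, hwl n hn, sub_self]
          · rw [mul_sub]
            exact Submodule.sub_mem _ hfx (Ideal.mul_mem_left _ _ hw)
        have := Submodule.add_mem _ h3 hw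
        rwa [sub_add_cancel] at this
    refine ⟨?_, ?_, ?_⟩
    · rw [reg_concat]
      refine ⟨ih1, ?_⟩
      intro x hx
      obtain ⟨N, hN⟩ := exists_low 𝒜 x
      exact hB N x hN hx
    · intro D g hg hgD
      rw [mem_ofList_concat] at hg
      obtain ⟨u, v, hv, rfl⟩ := hg
      obtain ⟨N, hN⟩ := exists_low 𝒜 u
      induction N generalizing u v with
      | zero =>
        have hu := low_zero_iff 𝒜 hN
        subst hu
        rw [zero_mul, zero_add] at hgD ⊢
        exact ofList_le_concat _ _ (ih2 D v hv hgD)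
      | succ N ihN =>
        by_cases hc : N + e i ≤ D
        · have hul : Low 𝒜 (D + 1) (u * f i) := (lead_mul_low 𝒜 hLi hN).mono 𝒜 (by omega)
          have hvl : Low 𝒜 (D + 1) v := by
            have := Low.sub 𝒜 hgD hul
            rwa [add_sub_cancel_left] at this
          rw [comp_add]
          apply Submodule.add_mem
          · have hN' : Low 𝒜 (D - e i + 1) u := hN.mono 𝒜 (by omega)
            have := lead_mul_comp 𝒜 hLi hN'
            rw [show D - e i + e i = D by omega] at this
            rw [this]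
            rw [mem_ofList_concat]
            exact ⟨_, 0, Submodule.zero_mem _, by rw [add_zero]⟩
          · exact ofList_le_concat _ _ (ih2 D v hv hvl)
        · have hvl : Low 𝒜 (N + e i + 1) v := by
            have := Low.sub 𝒜 (hgD.mono 𝒜 (show D + 1 ≤ N + e i + 1 by omega))
              (lead_mul_low 𝒜 hLi hN)
            rwa [add_sub_cancel_left] at this
          have h1 := ih2 (N + e i) v hv hvl
          have h2 : comp 𝒜 (N + e i) (u * f i + v) = 0 := hgD _ (by omega)
          rw [comp_add, lead_mul_comp 𝒜 hLi hN] at h2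
          have h3 : F i * comp 𝒜 N u ∈ Ideal.ofList (L.map F) := by
            have : F i * comp 𝒜 N u = - comp 𝒜 (N + e i) v := by
              rw [mul_comm]; exact eq_neg_of_add_eq_zero_left h2
            rw [this]
            exact Submodule.neg_mem _ h1
          obtain ⟨w, hw, hwl, hwc⟩ := ih3 N _ (hreg2 _ h3)
          rw [comp_of_mem 𝒜 (comp_mem 𝒜 N u), if_pos rfl] at hwc
          have h4 : u * f i + v = (u - w) * f i + (v + w * f i) := by ring
          rw [h4] at hgD ⊢
          apply ihN (u - w) (v + w * f i) (Submodule.add_mem _ hv (Ideal.mul_mem_right _ _ hw)) hgD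
          intro n hn
          rcases Nat.eq_or_lt_of_le hn with rfl | hn
          · rw [comp_sub, hwc, sub_self]
          · rw [comp_sub, hN n hn, hwl n hn, sub_self]
    · intro N x hx
      rw [mem_ofList_concat] at hx
      obtain ⟨c, y, hy, rfl⟩ := hx
      obtain ⟨w, hw, hwl, hwc⟩ := ih3 N y hy
      by_cases hc : e i ≤ N
      · have hcl : Low 𝒜 (N - e i + 1) (comp 𝒜 (N - e i) c) := low_of_mem 𝒜 (comp_mem 𝒜 _ c)
        refine ⟨comp 𝒜 (N - e i) c * f i + w, ?_, ?_, ?_⟩
        · rw [mem_ofList_concat]
          exact ⟨_, w, hw, rfl⟩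
        · apply Low.add _ _ hwl
          have := lead_mul_low 𝒜 hLi hcl
          rwa [show N - e i + e i = N by omega] at this
        · rw [comp_add, comp_add, hwc]
          congr 1
          have h1 := lead_mul_comp 𝒜 hLi hcl
          rw [show N - e i + e i = N by omega, comp_of_mem 𝒜 (comp_mem 𝒜 _ c), if_pos rfl] at h1
          have h2 := comp_mul 𝒜 hLi.1 (N - e i) c
          rw [show e i + (N - e i) = N by omega] at h2
          rw [h1, mul_comm c, h2, mul_comm]
      · refine ⟨w, ofList_le_concat _ _ hw, hwl, ?_⟩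
        rw [comp_add, hwc, mul_comm c, comp_mul' 𝒜 hLi.1 N c (by omega), zero_add]

end graded

/-! ### Minimal generators in a local ring -/

section localring

variable {R : Type*} [CommRing R] [IsLocalRing R] [IsNoetherianRing R]

open IsLocalRing

omit [IsNoetherianRing R] in
lemma unit_coeff (as : List R) : ∀ x ∈ Ideal.ofList as,
    x ∈ maximalIdeal R * Ideal.ofList as ∨
      ∃ l₁ a l₂ c s, as = l₁ ++ a :: l₂ ∧ IsUnit c ∧ s ∈ Ideal.ofList (l₁ ++ l₂) ∧
        x = s + c * a := by
  induction as with
  | nil =>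
    intro x hx
    left
    rw [Ideal.ofList_nil, Ideal.mem_bot] at hx
    rw [hx]
    exact Submodule.zero_mem _
  | cons a t ih =>
    intro x hx
    rw [Ideal.ofList_cons, Submodule.mem_sup] at hx
    obtain ⟨z, hz, y, hy, rfl⟩ := hx
    obtain ⟨c, rfl⟩ := Ideal.mem_span_singleton'.mp hz
    by_cases hc : IsUnit c
    · right
      exact ⟨[], a, t, c, y, rfl, hc, hy, by ring⟩
    · have hcm : c ∈ maximalIdeal R := hc
      have hca : c * a ∈ maximalIdeal R * Ideal.ofList (a :: t) :=
        Ideal.mul_mem_mul hcm (Ideal.subset_span (by simp))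
      rcases ih y hy with h | ⟨l₁, b, l₂, c', s, rfl, hc', hs, rfl⟩
      · left
        apply Submodule.add_mem _ hca
        refine Ideal.mul_mono_right ?_ h
        rw [Ideal.ofList_cons]
        exact le_sup_right
      · right
        refine ⟨a :: l₁, b, l₂, c', c * a + s, rfl, hc', ?_, by ring⟩
        rw [List.cons_append, Ideal.ofList_cons]
        exact Submodule.add_mem _ (Ideal.mem_sup_left (Ideal.mem_span_singleton'.mpr ⟨c, rfl⟩))
          (Ideal.mem_sup_right hs)

lemma exchange (I : Ideal R) (fs as : List R) (hreg : IsRegular R (fs ++ as))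
    (hI : Ideal.ofList (fs ++ as) = I) (g : R) (hg : g ∈ I)
    (hmin : g ∉ Ideal.ofList fs ⊔ maximalIdeal R * I) :
    ∃ as', IsRegular R ((fs ++ [g]) ++ as') ∧ Ideal.ofList ((fs ++ [g]) ++ as') = I := by
  have hg' := hg
  rw [← hI, Ideal.ofList_append, Submodule.mem_sup] at hg'
  obtain ⟨u, hu, x, hx, rfl⟩ := hg'
  rcases unit_coeff as x hx with h | ⟨l₁, a, l₂, c, s, rfl, hc, hs, rfl⟩
  · exfalso
    apply hmin
    apply Submodule.add_mem _ (Ideal.mem_sup_left hu) (Ideal.mem_sup_right _)
    refine Ideal.mul_mono_right ?_ h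
    rw [← hI, Ideal.ofList_append]
    exact le_sup_right
  · set g := u + (s + c * a) with hgdef
    -- move `a` to the end
    have hp : (fs ++ (l₁ ++ a :: l₂)).Perm ((fs ++ (l₁ ++ l₂)) ++ [a]) := by
      rw [List.append_assoc]
      apply List.Perm.append_left
      exact (List.perm_middle).trans (List.perm_append_singleton a (l₁ ++ l₂)).symm
    have hreg2 := isRegular_of_perm hreg hp
    have hJs : s ∈ Ideal.ofList (fs ++ (l₁ ++ l₂)) := by
      rw [Ideal.ofList_append]; exact Ideal.mem_sup_right hs
    have hJu : u ∈ Ideal.ofList (fs ++ (l₁ ++ l₂)) := by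
      rw [Ideal.ofList_append]; exact Ideal.mem_sup_left hu
    have hideal : Ideal.ofList ((fs ++ (l₁ ++ l₂)) ++ [g])
        = Ideal.ofList ((fs ++ (l₁ ++ l₂)) ++ [a]) := by
      rw [Ideal.ofList_append, Ideal.ofList_append (fs ++ (l₁ ++ l₂)), Ideal.ofList_singleton,
        Ideal.ofList_singleton]
      apply le_antisymm
      · apply sup_le le_sup_left
        rw [Ideal.span_singleton_le_iff_mem]
        rw [hgdef]
        exact Submodule.add_mem _ (Ideal.mem_sup_left hJu)
          (Submodule.add_mem _ (Ideal.mem_sup_left hJs)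
            (Ideal.mul_mem_left _ _ (Ideal.mem_sup_right (Ideal.mem_span_singleton_self a))))
      · apply sup_le le_sup_left
        rw [Ideal.span_singleton_le_iff_mem]
        obtain ⟨v, rfl⟩ := hc
        have : a = ↑v⁻¹ * g - ↑v⁻¹ * (u + s) := by
          rw [hgdef]
          have hv : (↑v⁻¹ : R) * ↑v = 1 := Units.inv_mul v
          calc a = (↑v⁻¹ * ↑v) * a := by rw [hv, one_mul]
            _ = _ := by ring
        rw [this]
        exact Submodule.sub_mem _
          (Ideal.mul_mem_left _ _ (Ideal.mem_sup_right (Ideal.mem_span_singleton_self g)))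
          (Ideal.mul_mem_left _ _ (Ideal.mem_sup_left (Submodule.add_mem _ hJu hJs)))
    have hIlist : Ideal.ofList ((fs ++ (l₁ ++ l₂)) ++ [a]) = I := by
      rw [← hI]
      exact congrArg Ideal.span (Set.ext fun z => hp.mem_iff.symm)
    have hweak : IsWeaklyRegular R ((fs ++ (l₁ ++ l₂)) ++ [g]) := by
      have h1 := hreg2.toIsWeaklyRegular
      rw [reg_concat] at h1 ⊢
      refine ⟨h1.1, ?_⟩
      intro x hx
      apply h1.2
      obtain ⟨v, rfl⟩ := hc
      have : a * x = ↑v⁻¹ * (g * x) - ↑v⁻¹ * x * (u + s) := by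
        rw [hgdef]
        have hv : (↑v⁻¹ : R) * ↑v = 1 := Units.inv_mul v
        calc a * x = (↑v⁻¹ * ↑v) * (a * x) := by rw [hv, one_mul]
          _ = _ := by ring
      rw [this]
      exact Submodule.sub_mem _ (Ideal.mul_mem_left _ _ hx)
        (Ideal.mul_mem_left _ _ (Submodule.add_mem _ hJu hJs))
    have hreg3 : IsRegular R ((fs ++ (l₁ ++ l₂)) ++ [g]) := by
      refine ⟨hweak, ?_⟩
      rw [hideal]
      exact hreg2.top_ne_smul
    have hp2 : ((fs ++ (l₁ ++ l₂)) ++ [g]).Perm ((fs ++ [g]) ++ (l₁ ++ l₂)) := by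
      rw [List.append_assoc fs (l₁ ++ l₂) [g], List.append_assoc fs [g] (l₁ ++ l₂)]
      apply List.Perm.append_left
      exact List.perm_append_comm
    refine ⟨l₁ ++ l₂, isRegular_of_perm hreg3 hp2, ?_⟩
    rw [← hIlist, ← hideal]
    exact congrArg Ideal.span (Set.ext fun z => hp2.mem_iff.symm)

/-- In a local ring a minimal generating list of an ideal generated by a regular sequence is a
regular sequence. -/
theorem minimal_regular (I : Ideal R) (as : List R) (has : IsRegular R as)
    (hasI : Ideal.ofList as = I) (fs : List R) (hfs : ∀ f ∈ fs, f ∈ I)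
    (hmin : ∀ l g r, fs = l ++ g :: r → g ∉ Ideal.ofList l ⊔ maximalIdeal R * I) :
    IsWeaklyRegular R fs := by
  have key : ∀ r l, fs = l ++ r →
      (∃ as', IsRegular R (l ++ as') ∧ Ideal.ofList (l ++ as') = I) → IsWeaklyRegular R fs := by
    intro r
    induction r with
    | nil =>
      rintro l h ⟨as', h1, -⟩
      rw [List.append_nil] at h
      subst h
      have := h1.toIsWeaklyRegular
      rw [isWeaklyRegular_append_iff] at this
      exact this.1
    | cons g r ih =>
      rintro l h ⟨as', h1, h2⟩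
      apply ih (l ++ [g]) (by rw [h]; simp)
      exact exchange I l as' h1 h2 g (hfs g (by rw [h]; simp)) (hmin l g r h)
  exact key fs [] rfl ⟨as, by simpa using has, by simpa using hasI⟩

end localring

/-! ### From local to global for homogeneous sequences -/

section global

variable {A : Type*} [CommRing A] {σ : Type*} [SetLike σ A] [AddSubgroupClass σ A]
  (𝒜 : ℕ → σ) [GradedRing 𝒜]

lemma comp_mem_ofList {ι : Type*} (e : ι → ℕ) (F : ι → A) (L : List ι)
    (hL : ∀ i ∈ L, F i ∈ 𝒜 (e i)) (x : A) (hx : x ∈ Ideal.ofList (L.map F)) (n : ℕ) :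
    comp 𝒜 n x ∈ Ideal.ofList (L.map F) := by
  induction L using List.reverseRecOn generalizing x with
  | nil =>
    rw [List.map_nil, Ideal.ofList_nil, Ideal.mem_bot] at hx
    rw [hx, comp_zero]
    exact Submodule.zero_mem _
  | append_singleton L i ih =>
    rw [List.map_append, List.map_cons, List.map_nil] at hx ⊢
    rw [mem_ofList_concat] at hx
    obtain ⟨c, y, hy, rfl⟩ := hx
    have h1 := ih (fun j hj => hL j (by simp [hj])) y hy
    rw [comp_add]
    apply Submodule.add_mem _ _ (ofList_le_concat _ _ h1)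
    by_cases hc : e i ≤ n
    · have h2 := comp_mul 𝒜 (hL i (by simp)) (n - e i) c
      rw [show e i + (n - e i) = n by omega] at h2
      rw [mul_comm, h2]
      exact Ideal.mul_mem_right _ _ (Ideal.subset_span (by simp))
    · rw [mul_comm, comp_mul' 𝒜 (hL i (by simp)) n c (by omega)]
      exact Submodule.zero_mem _

lemma mem_of_comp (J : Ideal A) (x : A) (h : ∀ n, comp 𝒜 n x ∈ J) : x ∈ J := by
  classical
  have hxs := DirectSum.sum_support_decompose 𝒜 x
  rw [← hxs]
  exact Submodule.sum_mem _ (fun n _ => h n)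

theorem global_of_local (m : Ideal A) [m.IsPrime] (hm : ∀ s, s ∉ m → IsUnit (comp 𝒜 0 s))
    {ι : Type*} (e : ι → ℕ) (F : ι → A) (L : List ι) (hL : ∀ i ∈ L, F i ∈ 𝒜 (e i))
    (h : IsWeaklyRegular (Localization.AtPrime m)
      ((L.map F).map (algebraMap A (Localization.AtPrime m)))) :
    IsWeaklyRegular A (L.map F) := by
  induction L using List.reverseRecOn with
  | nil => exact IsWeaklyRegular.nil _ _
  | append_singleton L i ih =>
    rw [List.map_append, List.map_append, List.map_cons, List.map_nil, List.map_cons, List.map_nil,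
      reg_concat] at h
    rw [List.map_append, List.map_cons, List.map_nil, reg_concat]
    have hL' : ∀ j ∈ L, F j ∈ 𝒜 (e j) := fun j hj => hL j (by simp [hj])
    refine ⟨ih hL' h.1, ?_⟩
    intro x hx
    apply mem_of_comp 𝒜
    intro n
    have h1 := comp_mem_ofList 𝒜 e F L hL' _ hx (e i + n)
    rw [comp_mul 𝒜 (hL i (by simp))] at h1
    have h2 := h.2 (algebraMap A _ (comp 𝒜 n x)) (by
      rw [← map_mul, ← Ideal.map_ofList]
      exact Ideal.mem_map_of_mem _ h1)
    rw [← Ideal.map_ofList, IsLocalization.algebraMap_mem_map_algebraMap_iff m.primeCompl] at h2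
    obtain ⟨s, hs, hsx⟩ := h2
    have h3 := comp_mem_ofList 𝒜 e F L hL' _ hsx (n + 0)
    rw [mul_comm, comp_mul 𝒜 (comp_mem 𝒜 n x)] at h3
    obtain ⟨v, hv⟩ := hm s hs
    rw [← hv] at h3
    have h4 := Ideal.mul_mem_right (↑v⁻¹ : A) _ h3
    rwa [mul_assoc, Units.mul_inv, mul_one] at h4

end global

/-! ### Hypergraph LSS ideals -/

section LSS

open MvPolynomial

attribute [local instance] MvPolynomial.weightedGradedAlgebra

/-- The polynomial `f_A^{(d)} = ∑_j ∏_{i ∈ A} y_{i,j}`. -/
noncomputable def gen (k : Type*) [Field k] (n d : ℕ) (A : Finset (Fin n)) :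
    MvPolynomial (Fin n × Fin d) k := ∑ j : Fin d, ∏ i ∈ A, X (i, j)

/-- The hypergraph Lovász–Saks–Schrijver ideal `L_H(d)` of the hypergraph with vertex set
`{0, …, n-1}` and edge set `E`. -/
noncomputable def LSS (k : Type*) [Field k] {n : ℕ} (E : Finset (Finset (Fin n))) (d : ℕ) :
    Ideal (MvPolynomial (Fin n × Fin d) k) := Ideal.span {f | ∃ A ∈ E, f = gen k n d A}

/-- Complete intersection: generated by a regular sequence. -/
def IsCI {R : Type*} [CommRing R] (I : Ideal R) : Prop :=
  ∃ rs : List R, IsRegular R rs ∧ Ideal.ofList rs = I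

/-- The edges are nonempty and no edge is contained in another edge. -/
def IsClutter {n : ℕ} (E : Finset (Finset (Fin n))) : Prop :=
  (∀ A ∈ E, A.Nonempty) ∧ ∀ A ∈ E, ∀ B ∈ E, A ⊆ B → A = B

variable {k : Type*} [Field k] {n : ℕ}

lemma LSS_eq (E : Finset (Finset (Fin n))) (d : ℕ) :
    LSS k E d = Ideal.ofList (E.toList.map (gen k n d)) := by
  unfold LSS
  congr 1
  ext f
  simp only [Set.mem_ofPred_eq, List.mem_map, Finset.mem_toList]
  constructor
  · rintro ⟨A, hA, rfl⟩; exact ⟨A, hA, rfl⟩
  · rintro ⟨A, hA, rfl⟩; exact ⟨A, hA, rfl⟩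

/-- killing the variables of the vertices outside `A` -/
noncomputable def rho (k : Type*) [Field k] (n d : ℕ) (A : Finset (Fin n)) :
    MvPolynomial (Fin n × Fin d) k →ₐ[k] MvPolynomial (Fin n × Fin d) k :=
  aeval (fun p => if p.1 ∈ A then X p else 0)

lemma rho_gen_self (d : ℕ) (A : Finset (Fin n)) : rho k n d A (gen k n d A) = gen k n d A := by
  unfold rho gen
  rw [map_sum]
  apply Finset.sum_congr rfl
  intro j _
  rw [map_prod]
  apply Finset.prod_congr rfl
  intro i hi
  rw [aeval_X, if_pos hi]

lemma rho_gen_other (d : ℕ) (A B : Finset (Fin n)) (h : ¬ B ⊆ A) :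
    rho k n d A (gen k n d B) = 0 := by
  unfold rho gen
  rw [map_sum]
  apply Finset.sum_eq_zero
  intro j _
  rw [map_prod]
  obtain ⟨i, hiB, hiA⟩ := Finset.not_subset.mp h
  apply Finset.prod_eq_zero hiB
  rw [aeval_X, if_neg hiA]

lemma constantCoeff_rho (d : ℕ) (A : Finset (Fin n)) (s : MvPolynomial (Fin n × Fin d) k) :
    constantCoeff (rho k n d A s) = constantCoeff s := by
  have : (constantCoeff (σ := Fin n × Fin d) (R := k)).comp (rho k n d A).toRingHom
      = constantCoeff := by
    apply MvPolynomial.ringHom_ext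
    · intro r
      simp [rho]
    · intro p
      simp only [rho, RingHom.comp_apply, AlgHom.toRingHom_eq_coe, RingHom.coe_coe, aeval_X,
        constantCoeff_X]
      split_ifs
      · simp
      · simp
  exact RingHom.congr_fun this s

lemma gen_ne_zero (d : ℕ) (hd : 1 ≤ d) (A : Finset (Fin n)) (hA : A.Nonempty) :
    gen k n d A ≠ 0 := by
  intro h
  have h1 := congrArg (eval (fun p : Fin n × Fin d => if p.2 = (⟨0, hd⟩ : Fin d) then (1 : k) else 0)) h
  unfold gen at h1
  rw [map_sum, map_zero] at h1
  rw [Finset.sum_eq_single (⟨0, hd⟩ : Fin d)] at h1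
  · rw [map_prod] at h1
    simp at h1
  · intro j _ hj
    rw [map_prod]
    obtain ⟨i, hi⟩ := hA
    apply Finset.prod_eq_zero hi
    rw [eval_X, if_neg hj]
  · intro h
    exact absurd (Finset.mem_univ _) h

lemma constantCoeff_gen (d : ℕ) (A : Finset (Fin n)) (hA : A.Nonempty) :
    constantCoeff (gen k n d A) = 0 := by
  unfold gen
  rw [map_sum]
  apply Finset.sum_eq_zero
  intro j _
  rw [map_prod]
  obtain ⟨i, hi⟩ := hA
  apply Finset.prod_eq_zero hi
  rw [constantCoeff_X]

lemma gen_homog (d : ℕ) (A : Finset (Fin n)) :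
    gen k n d A ∈ weightedHomogeneousSubmodule k (fun _ : Fin n × Fin d => 1) A.card := by
  rw [mem_weightedHomogeneousSubmodule]
  unfold gen
  apply IsWeightedHomogeneous.sum
  intro j _
  have := IsWeightedHomogeneous.prod (R := k) A (fun i => X (i, j)) (fun _ => 1)
    (w := fun _ : Fin n × Fin d => 1) (fun i _ => isWeightedHomogeneous_X k _ _)
  simpa using this

lemma comp_zero_eq {d : ℕ} (s : MvPolynomial (Fin n × Fin d) k) :
    comp (weightedHomogeneousSubmodule k (fun _ : Fin n × Fin d => 1)) 0 s = C (constantCoeff s) := by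
  have h1 : comp (weightedHomogeneousSubmodule k (fun _ : Fin n × Fin d => 1)) 0 s
      = weightedHomogeneousComponent (fun _ : Fin n × Fin d => 1) 0 s :=
    MvPolynomial.weightedDecomposition.decompose'_apply k _ s 0
  rw [h1, weightedHomogeneousComponent_zero _ (fun _ => one_ne_zero)]
  rfl

/-- If the ideal `L_H(d)` is a complete intersection then its standard generators form a regular
sequence. -/
theorem gen_regular (E : Finset (Finset (Fin n))) (hE : IsClutter E) (d : ℕ) (hd : 1 ≤ d)
    (h : IsCI (LSS k E d)) :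
    IsWeaklyRegular (MvPolynomial (Fin n × Fin d) k) (E.toList.map (gen k n d)) := by
  obtain ⟨as, has, hasI⟩ := h
  set m : Ideal (MvPolynomial (Fin n × Fin d) k) := RingHom.ker constantCoeff with hm
  have : m.IsPrime := RingHom.ker_isPrime _
  have hIm : LSS k E d ≤ m := by
    unfold LSS
    rw [Ideal.span_le]
    rintro f ⟨A, hA, rfl⟩
    exact constantCoeff_gen d A (hE.1 A hA)
  apply global_of_local (weightedHomogeneousSubmodule k (fun _ : Fin n × Fin d => 1)) m ?_
    (fun A => A.card) (gen k n d) E.toList (fun A _ => gen_homog d A)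
  · -- local statement
    set R := Localization.AtPrime m with hR
    have hregR : IsRegular R (as.map (algebraMap _ R)) := by
      apply IsWeaklyRegular.isRegular_of_isLocalization_of_mem R m has.toIsWeaklyRegular
      intro r hr
      apply hIm
      rw [← hasI]
      exact Ideal.subset_span hr
    apply minimal_regular ((LSS k E d).map (algebraMap _ R)) _ hregR
    · rw [← Ideal.map_ofList, hasI]
    · intro f hf
      rw [List.mem_map] at hf
      obtain ⟨g, hg, rfl⟩ := hf
      apply Ideal.mem_map_of_mem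
      rw [LSS_eq]
      exact Ideal.subset_span hg
    · intro l g r hlgr hmem
      rw [List.map_map, List.map_eq_append_iff] at hlgr
      obtain ⟨L1, L2, hL, rfl, hL2⟩ := hlgr
      rw [List.map_eq_cons_iff] at hL2
      obtain ⟨A, L3, rfl, rfl, -⟩ := hL2
      have hAE : A ∈ E := by
        rw [← Finset.mem_toList, hL]; simp
      have hnd : A ∉ L1 := by
        have := Finset.nodup_toList E
        rw [hL, List.nodup_append] at this
        intro hA1
        exact this.2.2 A hA1 A (by simp) rfl
      have hL1E : ∀ B ∈ L1, B ∈ E := by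
        intro B hB
        rw [← Finset.mem_toList, hL]; simp [hB]
      -- clear denominators
      have hmap : Ideal.ofList (L1.map (⇑(algebraMap _ R) ∘ gen k n d))
          ⊔ IsLocalRing.maximalIdeal R * (LSS k E d).map (algebraMap _ R)
          = (Ideal.ofList (L1.map (gen k n d)) ⊔ m * LSS k E d).map (algebraMap _ R) := by
        rw [Ideal.map_sup, Ideal.map_mul, Ideal.map_ofList, List.map_map]
        congr 2
        exact (IsLocalization.AtPrime.map_eq_maximalIdeal m R).symm
      rw [hmap] at hmem
      have hmem2 : algebraMap _ R (gen k n d A) ∈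
          (Ideal.ofList (L1.map (gen k n d)) ⊔ m * LSS k E d).map (algebraMap _ R) := hmem
      rw [IsLocalization.algebraMap_mem_map_algebraMap_iff m.primeCompl] at hmem2
      obtain ⟨s, hs, hsA⟩ := hmem2
      -- apply rho
      have hle : Ideal.ofList (L1.map (gen k n d)) ⊔ m * LSS k E d
          ≤ (m * Ideal.span {gen k n d A}).comap (rho k n d A).toRingHom := by
        apply sup_le
        · rw [Ideal.span_le]
          intro f hf
          have hf' : f ∈ L1.map (gen k n d) := hf
          rw [List.mem_map] at hf'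
          obtain ⟨B, hB, rfl⟩ := hf'
          have hBA : ¬ B ⊆ A := fun hBA => hnd ((hE.2 B (hL1E B hB) A hAE hBA) ▸ hB)
          have : rho k n d A (gen k n d B) = 0 := rho_gen_other d A B hBA
          show rho k n d A (gen k n d B) ∈ m * Ideal.span {gen k n d A}
          rw [this]
          exact Submodule.zero_mem _
        · rw [Ideal.mul_le]
          intro a ha b hb
          show rho k n d A (a * b) ∈ m * Ideal.span {gen k n d A}
          rw [map_mul]
          apply Ideal.mul_mem_mul
          · show constantCoeff (rho k n d A a) = 0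
            rw [constantCoeff_rho]
            exact ha
          · have hb2 : LSS k E d ≤ (Ideal.span {gen k n d A}).comap (rho k n d A).toRingHom := by
              unfold LSS
              rw [Ideal.span_le]
              rintro f ⟨B, hB, rfl⟩
              show rho k n d A (gen k n d B) ∈ Ideal.span {gen k n d A}
              by_cases hBA : B ⊆ A
              · have := hE.2 B hB A hAE hBA
                subst this
                rw [rho_gen_self]
                exact Ideal.mem_span_singleton_self _
              · rw [rho_gen_other d A B hBA]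
                exact Submodule.zero_mem _
            exact hb2 hb
      have h1 : rho k n d A (s * gen k n d A) ∈ m * Ideal.span {gen k n d A} := hle hsA
      rw [map_mul, rho_gen_self, Ideal.mem_mul_span_singleton] at h1
      obtain ⟨μ, hμ, hμe⟩ := h1
      have h2 : rho k n d A s = μ :=
        (mul_right_cancel₀ (gen_ne_zero d hd A (hE.1 A hAE)) hμe).symm
      apply hs
      show constantCoeff s = 0
      rw [← constantCoeff_rho d A s, h2]
      exact hμ
  · intro s hs
    rw [comp_zero_eq]
    apply IsUnit.map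
    rw [isUnit_iff_ne_zero]
    exact hs

/-- the bijection of the sets of variables -/
noncomputable def varEquiv (n d : ℕ) : (Fin n ⊕ Fin n × Fin d) ≃ Fin n × Fin (d + 1) :=
  Equiv.ofBijective (Sum.elim (fun i => (i, Fin.last d)) (fun p => (p.1, p.2.castSucc))) (by
    constructor
    · rintro (i | ⟨i, j⟩) (i' | ⟨i', j'⟩) h
      · simp only [Sum.elim_inl, Prod.mk.injEq, and_true] at h
        rw [h]
      · simp only [Sum.elim_inl, Sum.elim_inr, Prod.mk.injEq] at h
        exact absurd h.2.symm (Fin.castSucc_lt_last _).ne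
      · simp only [Sum.elim_inl, Sum.elim_inr, Prod.mk.injEq] at h
        exact absurd h.2 (Fin.castSucc_lt_last _).ne
      · simp only [Sum.elim_inr, Prod.mk.injEq] at h
        rw [h.1, Fin.castSucc_injective _ h.2]
    · rintro ⟨i, j⟩
      refine Fin.lastCases ?_ (fun j => ?_) j
      · exact ⟨Sum.inl i, rfl⟩
      · exact ⟨Sum.inr (i, j), rfl⟩)

/-- the ring isomorphism `S(d)[z_1, …, z_n] ≅ S(d+1)` -/
noncomputable def ringEquiv (k : Type*) [Field k] (n d : ℕ) :
    MvPolynomial (Fin n) (MvPolynomial (Fin n × Fin d) k) ≃+* MvPolynomial (Fin n × Fin (d + 1)) k :=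
  ((sumAlgEquiv k (Fin n) (Fin n × Fin d)).symm.trans (renameEquiv k (varEquiv n d))).toRingEquiv

/-- the leading form -/
noncomputable def lead (k : Type*) [Field k] (n d : ℕ) (A : Finset (Fin n)) :
    MvPolynomial (Fin n × Fin (d + 1)) k := ∑ j : Fin d, ∏ i ∈ A, X (i, j.castSucc)

lemma ringEquiv_C (d : ℕ) (A : Finset (Fin n)) :
    ringEquiv k n d (C (gen k n d A)) = lead k n d A := by
  unfold gen lead
  rw [map_sum, map_sum]
  apply Finset.sum_congr rfl
  intro j _
  rw [map_prod, map_prod]
  apply Finset.prod_congr rfl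
  intro i _
  show renameEquiv k (varEquiv n d) ((sumAlgEquiv k (Fin n) (Fin n × Fin d)).symm (C (X (i, j)))) = _
  have : (sumAlgEquiv k (Fin n) (Fin n × Fin d)).symm (C (X (i, j))) = X (Sum.inr (i, j)) := by
    rw [AlgEquiv.symm_apply_eq]
    simp
  rw [this]
  simp only [renameEquiv_apply, rename_X, varEquiv]
  rfl

/-- the weights -/
def wt (n d : ℕ) (p : Fin n × Fin (d + 1)) : ℕ := if p.2 = Fin.last d then 0 else 1

lemma lead_homog (d : ℕ) (A : Finset (Fin n)) :
    lead k n d A ∈ weightedHomogeneousSubmodule k (wt n d) A.card := by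
  rw [mem_weightedHomogeneousSubmodule]
  unfold lead
  apply IsWeightedHomogeneous.sum
  intro j _
  have := IsWeightedHomogeneous.prod (R := k) A (fun i => X (i, j.castSucc)) (fun _ => 1)
    (w := wt n d) (fun i _ => by
      have h := isWeightedHomogeneous_X k (wt n d) (i, j.castSucc)
      have h1 : wt n d (i, j.castSucc) = 1 := by
        unfold wt
        rw [if_neg]
        exact (Fin.castSucc_lt_last _).ne
      rwa [h1] at h)
  simpa using this

lemma last_homog (d : ℕ) (A : Finset (Fin n)) :
    (∏ i ∈ A, X (i, Fin.last d) : MvPolynomial (Fin n × Fin (d + 1)) k)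
      ∈ weightedHomogeneousSubmodule k (wt n d) 0 := by
  rw [mem_weightedHomogeneousSubmodule]
  have := IsWeightedHomogeneous.prod (R := k) A (fun i => X (i, Fin.last d)) (fun _ => 0)
    (w := wt n d) (fun i _ => by
      have h := isWeightedHomogeneous_X k (wt n d) (i, Fin.last d)
      have h1 : wt n d (i, Fin.last d) = 0 := by
        unfold wt
        rw [if_pos rfl]
      rwa [h1] at h)
  simpa using this

/-- **The complete intersection property of hypergraph LSS ideals persists**: if `E` is a clutter
and `L_H(d)` is a complete intersection, then `L_H(d+1)` is a complete intersection. -/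
theorem result (k : Type*) [Field k] (n : ℕ) (E : Finset (Finset (Fin n))) (hE : IsClutter E)
    (d : ℕ) (hd : 1 ≤ d) (h : IsCI (LSS k E d)) : IsCI (LSS k E (d + 1)) := by
  have h1 := gen_regular E hE d hd h
  have h2 := reg_equiv (ringEquiv k n d) _ (reg_C (Fin n) _ h1)
  rw [List.map_map, List.map_map] at h2
  have h3 : ((⇑(ringEquiv k n d) ∘ ⇑C) ∘ gen k n d) = lead k n d := by
    funext A
    exact ringEquiv_C d A
  rw [h3] at h2
  have h4 := (degenerate (weightedHomogeneousSubmodule k (wt n d)) (fun A => A.card)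
    (lead k n d) (gen k n (d + 1)) E.toList (by
      intro A hA
      rw [Finset.mem_toList] at hA
      refine ⟨lead_homog d A, ?_⟩
      have : gen k n (d + 1) A - lead k n d A = ∏ i ∈ A, X (i, Fin.last d) := by
        unfold gen lead
        rw [Fin.sum_univ_castSucc]
        ring
      rw [this]
      apply (low_of_mem _ (last_homog d A)).mono
      exact Finset.card_pos.mpr (hE.1 A hA)) h2).1
  refine ⟨_, ⟨h4, ?_⟩, (LSS_eq E (d + 1)).symm⟩
  rw [← LSS_eq, smul_eq_mul, Ideal.mul_top]
  intro htop
  have hle : LSS k E (d + 1) ≤ RingHom.ker (constantCoeff (σ := Fin n × Fin (d + 1)) (R := k)) := by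
    unfold LSS
    rw [Ideal.span_le]
    rintro f ⟨A, hA, rfl⟩
    exact constantCoeff_gen (d + 1) A (hE.1 A hA)
  have h5 : (1 : MvPolynomial (Fin n × Fin (d + 1)) k) ∈ LSS k E (d + 1) := by
    have h6 : (1 : MvPolynomial (Fin n × Fin (d + 1)) k) ∈
      (⊤ : Ideal (MvPolynomial (Fin n × Fin (d + 1)) k)) := Submodule.mem_top
    rwa [htop] at h6
  have h6 : constantCoeff (1 : MvPolynomial (Fin n × Fin (d + 1)) k) = 0 := hle h5
  rw [map_one] at h6
  exact one_ne_zero h6

end LSS

end Pool.Agent.Results.MP_3122b6_ag.CompleteIntersectionPersists
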